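import Pool.Agent.H829C.Times

/-!
# Contacts between the past and the future of a self-avoiding walk on `ℤ³`

Let `X_t(ω)` be the number of pairs `i < t < j` such that `ω i` and `ω j` are neighbours.  The
inequality `c_(p+q) ≤ c_p c_q` is strengthened to: the sum of `exp (X_p(ω) / K)` over the
`(p+q)`-step self-avoiding walks is at most `K c_p c_q`.  As a consequence, in the uniform `n`-step
walk, all the `X_t` are at most `n^(1/3 + o(1))`.
-/

set_option autoImplicit false

namespace Pool.Agent.Results.MP_794e6e_pr.Contacts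

/-- the self-avoiding walks on `ℤ³` with `n` steps from the origin -/
def walks (n : ℕ) : Set (Fin (n + 1) → (Fin 3 → ℤ)) :=
  {ω | ω 0 = 0 ∧ Function.Injective ω ∧ ∀ i : Fin n, ∑ j : Fin 3, |ω i.succ j - ω i.castSucc j| = 1}

/-- The number of contacts between the past and the future of the time `t`: the number of pairs
`(i, k)` of times with `i < t < k` such that the sites `ω i` and `ω k` are neighbours. -/
noncomputable def contacts {n : ℕ} (t : ℕ) (ω : Fin (n + 1) → (Fin 3 → ℤ)) : ℕ :=
  Set.ncard {p : Fin (n + 1) × Fin (n + 1) | p.1.1 < t ∧ t < p.2.1 ∧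
    ∑ j : Fin 3, |ω p.2 j - ω p.1 j| = 1}

/-- **Contacts between the past and the future.** There is `K > 0` such that
(1) for all `p`, `q`, the sum of `exp (contacts p ω / K)` over the self-avoiding walks `ω` with
`p + q` steps is at most `K c_p c_q`;
(2) for all `n ≥ 3` and `x ≥ 0`, in the uniform self-avoiding walk `ω` with `n` steps, with
probability at least `1 - exp (-x)`, for all times `t` at once there are at most
`K (n^(1/3) exp (K (log log n)²) + x)` contacts between the past and the future of `t`. -/
theorem result : ∃ K : ℝ, 0 < K ∧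
    (∀ p q : ℕ, ∑ᶠ ω ∈ walks (p + q), Real.exp ((contacts p ω : ℝ) / K) ≤
      K * ((walks p).ncard * (walks q).ncard)) ∧
    ∀ n : ℕ, 3 ≤ n → ∀ x : ℝ, 0 ≤ x →
      ((walks n ∩ {ω | ∃ t : ℕ, K * ((n : ℝ) ^ (1 / 3 : ℝ) *
        Real.exp (K * Real.log (Real.log n) ^ 2) + x) < contacts t ω}).ncard : ℝ) ≤
        Real.exp (-x) * (walks n).ncard := by
  classical
  obtain ⟨K, hK, h1, h2⟩ := H829C.all_times
  have hw : ∀ n, (walks n).ncard = (H829C.KK n).card := fun n => H829C.walks_card n
  refine ⟨K, by linarith, fun p q => ?_, fun n hn x hx => ?_⟩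
  · rw [hw, hw]
    refine le_trans (le_of_eq ?_) (h1 p q)
    rw [H829C.walks_sum]
    refine finsum_mem_congr rfl fun ω hω => ?_
    rw [H829C.cp_ofFn p hω.2.1]
    rfl
  · have e := H829C.walks_filter n (fun v => ∃ t ≤ n, K * (H829C.sg K n + x) < H829C.cp t v)
    have h3 : ((H829C.walks n ∩ {ω | ∃ t ≤ n, K * (H829C.sg K n + x) <
        H829C.cp t (List.ofFn ω)}).ncard : ℝ) ≤ Real.exp (-x) * (H829C.KK n).card := by
      have e' := e.symm
      have h4 := h2 n hn x hx
      rw [e']
      convert h4
    rw [hw]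
    refine le_trans (le_of_eq ?_) h3
    congr 2
    ext ω
    simp only [Set.mem_inter_iff, Set.mem_ofPred_eq]
    refine and_congr_right fun hω => ?_
    constructor
    · rintro ⟨t, ht⟩
      have h4 : H829C.cp t (List.ofFn ω) = contacts t ω := H829C.cp_ofFn t hω.2.1
      refine ⟨t, ?_, by rw [h4]; exact ht⟩
      by_contra hc
      have h5 : contacts t ω = 0 := by
        unfold contacts
        rw [Set.ncard_eq_zero]
        ext p
        simp only [Set.mem_ofPred_eq, Set.mem_empty_iff_false, iff_false]
        rintro ⟨-, h6, -⟩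
        have := p.2.2
        omega
      rw [h5] at ht
      have h6 : 0 ≤ (n : ℝ) ^ (1 / 3 : ℝ) * Real.exp (K * Real.log (Real.log n) ^ 2) := by
        positivity
      have h7 : 0 ≤ K * ((n : ℝ) ^ (1 / 3 : ℝ) *
          Real.exp (K * Real.log (Real.log n) ^ 2) + x) := mul_nonneg (by linarith) (by linarith)
      push_cast at ht
      linarith
    · rintro ⟨t, -, ht⟩
      have h4 : H829C.cp t (List.ofFn ω) = contacts t ω := H829C.cp_ofFn t hω.2.1
      rw [h4] at ht
      exact ⟨t, ht⟩

end Pool.Agent.Results.MP_794e6e_pr.Contacts
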