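import Pool.Agent.Run7.h967.HB.R3c

/-!
# Half-space walks and bridges on `ℤ³`

Let `c_n`, `h_n`, `b_n` be the numbers of the `n`-step self-avoiding walks on `ℤ³`, of those in the
half-space `x ≥ 0`, and of the bridges, and let `μ` be the limit of `c_n^(1/n)`.

(1) In every window of lengths `[n, n + M)` with `n^(1/3+ε) ≤ M ≤ n` the mean of `h_m / c_m` is at
    most `(log n)^(-c)`; so `h_m ≤ (log n)^(-c/2) c_m` for all but `M (log n)^(-c/2)` lengths of the
    window.
(2) For every block of times `[a, a + M)`, `M ≥ n^(1/3+ε)`, `a + M ≤ n`: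
    `∑_t h_t h_(n-1-t) ≤ M (log n)^(-c) c_n`. (The product `h_t h_(n-1-t)` is the number of the
    `n`-step walks for which the time `t` is a cut time with an upward step.)
(3) `b_n ≤ μ^n (log n)^(-c)` for ALL large `n`.

Proof. Cut times of a walk have different levels, so a walk which has many cut times in a block of
times goes far within this block; the quantitative sub-ballisticity of the walks and the bound
`c_n ≤ μ^n exp(O(n^(1/3+ε)))` exclude this. This gives (2) and, by gluing two half-space walks with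
lengths in the window, (1). For bridges the same argument bounds the sums of `b_m μ^(-m)` over
`m < M`, and, since `b_m μ^(-m)` is a renewal sequence, over ALL windows of `M` consecutive lengths.
Every single term is estimated by regularity: the bridges are closed under the removal of unit
bumps, and under their insertion inside the slab, which gives
`|b_(n+2) / b_n - μ^2| ≤ C n^(-1/8)`, so `b_m μ^(-m)` does not change much over a window of
`n^(1/9)` lengths.
-/

set_option autoImplicit false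

namespace Pool.Agent.Results.MP_794e6e_pr.HalfSpaceWalksAndBridges

open Filter Topology

/-- `ω` is an `n`-step self-avoiding nearest-neighbour walk on `ℤ³` from `0` -/
def IsSAW (n : ℕ) (ω : Fin (n + 1) → (Fin 3 → ℤ)) : Prop :=
  ω 0 = 0 ∧ (∀ i : Fin n, ∑ k, |ω i.succ k - ω i.castSucc k| = 1) ∧ Function.Injective ω

/-- the number of the `n`-step self-avoiding walks on `ℤ³` from `0` -/
noncomputable def C (n : ℕ) : ℕ := Nat.card {ω : Fin (n + 1) → (Fin 3 → ℤ) // IsSAW n ω}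

/-- the number of the `n`-step self-avoiding walks in the half-space `x ≥ 0` -/
noncomputable def H (n : ℕ) : ℕ :=
  Nat.card {ω : Fin (n + 1) → (Fin 3 → ℤ) // IsSAW n ω ∧ ∀ i, 0 ≤ ω i 0}

/-- the number of the `n`-step bridges: `0 < x(ω_i) ≤ x(ω_n)` for `1 ≤ i ≤ n` -/
noncomputable def B (n : ℕ) : ℕ :=
  Nat.card {ω : Fin (n + 1) → (Fin 3 → ℤ) // IsSAW n ω ∧
    ∀ i : Fin (n + 1), i ≠ 0 → 0 < ω i 0 ∧ ω i 0 ≤ ω (Fin.last n) 0}

section match_counts

open scoped Classical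
open Pool.Agent.Run7.h967.HB Pool.Agent.TH546.GD Pool.Agent.H725R2.SB

theorem count (n : ℕ) (E : (Fin (n + 1) → (Fin 3 → ℤ)) → Prop) (E' : (ℕ → Fin 3 → ℤ) → Prop)
    (h : ∀ ω, Pool.Agent.H725R2.SB.IsSAW 3 n ω → (E ω ↔ E' (tN2_st n ω))) :
    (Nat.card {ω : Fin (n + 1) → (Fin 3 → ℤ) // IsSAW n ω ∧ E ω} : ℝ) =
      (((SawSet (Om 3) n).filter E').card : ℝ) := by
  rw [← card_filter_WF E']
  have h1 : (((WF 3 n).filter (fun ω => E' (tN2_st n ω))).card : ℝ) =
      (((((WF 3 n).filter (fun ω => E' (tN2_st n ω)) :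
        Finset (Fin (n + 1) → Fin 3 → ℤ)) : Set (Fin (n + 1) → Fin 3 → ℤ))).ncard : ℝ) := by
    rw [Set.ncard_coe_finset]
  rw [h1, ← Nat.card_coe_set_eq]
  congr 1
  refine Nat.card_congr (Equiv.subtypeEquivRight (fun ω => ?_))
  rw [Finset.mem_coe, Finset.mem_filter, mem_WF]
  constructor
  · rintro ⟨h1, h2⟩
    exact ⟨h1, (h ω h1).1 h2⟩
  · rintro ⟨h1, h2⟩
    exact ⟨h1, (h ω h1).2 h2⟩

theorem C_eq (n : ℕ) : (C n : ℝ) = cc (Om 3) n := by
  rw [← card_WF]
  have h1 : ((WF 3 n).card : ℝ) = (((WF 3 n : Set (Fin (n + 1) → Fin 3 → ℤ))).ncard : ℝ) := by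
    rw [Set.ncard_coe_finset]
  rw [h1, ← Nat.card_coe_set_eq]
  unfold C
  congr 1
  refine Nat.card_congr (Equiv.subtypeEquivRight (fun ω => ?_))
  rw [Finset.mem_coe, mem_WF]
  exact Iff.rfl

theorem lev_st {n : ℕ} {ω : Fin (n + 1) → (Fin 3 → ℤ)} (h : Pool.Agent.H725R2.SB.IsSAW 3 n ω)
    (i : Fin (n + 1)) : lev (cl 3 0) (tN2_st n ω) i = ω i 0 := by
  unfold lev
  rw [tN2_P_st_saw h i, cl_F]

theorem H_eq (n : ℕ) : (H n : ℝ) = hh (cl 3 0) n := by
  unfold H hh UpS
  refine count n _ _ (fun ω hω => ?_)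
  constructor
  · intro h i hi
    have := lev_st hω ⟨i, by omega⟩
    simp only at this
    rw [this]
    exact h _
  · intro h i
    have := h i (by omega)
    rwa [lev_st hω i] at this

theorem B_eq (n : ℕ) : (B n : ℝ) = bb (cl 3 0) n := by
  unfold B bb BrS
  refine count n _ _ (fun ω hω => ?_)
  have hl : lev (cl 3 0) (tN2_st n ω) n = ω (Fin.last n) 0 := lev_st hω (Fin.last n)
  constructor
  · intro h
    have hpos : ∀ i, 1 ≤ i → i ≤ n → 0 < lev (cl 3 0) (tN2_st n ω) i ∧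
        lev (cl 3 0) (tN2_st n ω) i ≤ lev (cl 3 0) (tN2_st n ω) n := by
      intro i h1 h2
      have h3 := lev_st hω ⟨i, by omega⟩
      simp only at h3
      rw [h3, hl]
      exact h _ (by
        intro hh
        have := congrArg Fin.val hh
        simp only [Fin.val_zero] at this
        omega)
    refine ⟨?_, fun i h1 h2 => (hpos i h1 h2).1, fun i hi => ?_⟩
    · have := tN2_st_mem hω
      rwa [mem_SawSet] at this
    · rcases Nat.eq_zero_or_pos i with h0 | h0
      · subst h0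
        rw [lev_zero]
        rcases Nat.eq_zero_or_pos n with hn | hn
        · subst hn
          rw [lev_zero]
        · exact (hpos n hn le_rfl).1.le
      · exact (hpos i h0 hi).2
  · intro h i hi
    have hi1 : 1 ≤ (i : ℕ) := by
      by_contra hcon
      push Not at hcon
      exact hi (Fin.ext (by simp only [Fin.val_zero]; omega))
    have h1 := h.pos i hi1 (by omega)
    have h2 := h.top i (by omega)
    rw [lev_st hω i] at h1 h2
    rw [hl] at h2
    exact ⟨h1, h2⟩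

end match_counts

/-- **Theorem.** Let `C n`, `H n`, `B n` be the numbers of the `n`-step self-avoiding walks on `ℤ³`,
of those in the half-space `x ≥ 0`, and of the bridges. There are `μ > 0` and `c > 0` such that
`C(n)^(1/n) → μ`, and:
(1) for every `ε > 0`, all large `n` and all `M` with `n^(1/3+ε) ≤ M ≤ n`:
`∑_(n ≤ m < n + M) H(m) / C(m) ≤ M / (log n)^c`;
(2) for every `ε > 0`, all large `n` and all `a`, `M` with `n^(1/3+ε) ≤ M`, `a + M ≤ n`:
`∑_(a ≤ t < a + M) H(t) H(n - 1 - t) ≤ M / (log n)^c · C(n)`;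
(3) for ALL large `n`: `B(n) ≤ μ^n / (log n)^c`. -/
theorem result : ∃ μ c : ℝ, 0 < μ ∧ 0 < c ∧
    Tendsto (fun n : ℕ => (C n : ℝ) ^ (1 / (n : ℝ))) atTop (𝓝 μ) ∧
    (∀ ε : ℝ, 0 < ε → ∃ n0 : ℕ, ∀ n : ℕ, n0 ≤ n → ∀ M : ℕ,
      (n : ℝ) ^ (1 / 3 + ε) ≤ M → M ≤ n →
      ∑ m ∈ Finset.Ico n (n + M), (H m : ℝ) / C m ≤ (M : ℝ) / Real.log n ^ c) ∧
    (∀ ε : ℝ, 0 < ε → ∃ n0 : ℕ, ∀ n : ℕ, n0 ≤ n → ∀ a M : ℕ,
      (n : ℝ) ^ (1 / 3 + ε) ≤ M → a + M ≤ n →
      ∑ t ∈ Finset.Ico a (a + M), (H t : ℝ) * H (n - 1 - t) ≤ (M : ℝ) / Real.log n ^ c * C n) ∧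
    ∃ n0 : ℕ, ∀ n : ℕ, n0 ≤ n → (B n : ℝ) ≤ μ ^ n / Real.log n ^ c := by
  obtain ⟨c, hc, h1, h2, h3⟩ := Pool.Agent.Run7.h967.HB.main3'
  refine ⟨Pool.Agent.H46R2.K3.mu, c, lt_of_lt_of_le one_pos Pool.Agent.H46R2.K3.P.one_le_mu, hc,
    ?_, ?_, ?_, ?_⟩
  · have : ∀ n, (C n : ℝ) = Pool.Agent.H46R2.K3.c n := fun n => by
      rw [C_eq, Pool.Agent.Run7.h967.HB.cc3]
    simpa only [this] using Pool.Agent.H46R2.K3.P.tendsto_c
  · intro ε hε
    obtain ⟨n0, h⟩ := h1 ε hε
    refine ⟨n0, fun n hn M hM hMn => ?_⟩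
    simp only [C_eq, H_eq]
    exact h n hn M hM hMn
  · intro ε hε
    obtain ⟨n0, h⟩ := h2 ε hε
    refine ⟨n0, fun n hn a M hM haM => ?_⟩
    simp only [C_eq, H_eq]
    exact h n hn a M hM haM
  · obtain ⟨n0, h⟩ := h3
    refine ⟨n0, fun n hn => ?_⟩
    simp only [B_eq]
    rw [← Pool.Agent.Run7.h967.HB.mu3]
    exact h n hn

end Pool.Agent.Results.MP_794e6e_pr.HalfSpaceWalksAndBridges
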