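import Pool.Agent.R956.Z3
import Pool.Agent.Run7.h130.PL.Z3

/-!
Self-avoiding walks on `ℤ³`: the limit points of `c_n / (μ^n n^(γ-1))`, and equivalent forms of
`c_n ~ A μ^n n^(γ-1)`.
-/

set_option autoImplicit false

namespace Pool.Agent.Results.MP_794e6e_pr.NonIntersectionAmplitude

open Filter Topology Set

/-- the number of `n`-step self-avoiding nearest-neighbour walks on `ℤ³` from `0` -/
noncomputable def C (n : ℕ) : ℕ :=
  Nat.card {f : Fin (n + 1) → (Fin 3 → ℤ) //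
    f 0 = 0 ∧ Function.Injective f ∧
    ∀ i : Fin n, ∑ j : Fin 3, |f i.succ j - f i.castSucc j| = 1}

/-- `P n m`: the probability `c_{n+m} / (c_n c_m)` that two independent uniform self-avoiding walks
from `0` with `n` and `m` steps meet at `0` only -/
noncomputable def P (n m : ℕ) : ℝ := (C (n + m) : ℝ) / ((C n : ℝ) * C m)

/-- `c_n / (μ^n n^(γ-1))` -/
noncomputable def X (μ γ : ℝ) (n : ℕ) : ℝ := (C n : ℝ) / μ ^ n / (n : ℝ) ^ (γ - 1)

/-- `X μ γ n` along the numbers `n` of parity `p`, that is for `n = 2 k + p` -/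
noncomputable def XP (μ γ : ℝ) (p k : ℕ) : ℝ := X μ γ (2 * k + p)

/-- `log (c_n / μ^n) / log n` -/
noncomputable def E (μ : ℝ) (n : ℕ) : ℝ := Real.log ((C n : ℝ) / μ ^ n) / Real.log n

/-- the limit points of a real sequence in `[-∞, ∞]` -/
def Lim (x : ℕ → ℝ) : Set EReal := {t | MapClusterPt t atTop (fun n => ((x n : ℝ) : EReal))}

/-- the lower limit -/
noncomputable def lo (x : ℕ → ℝ) : EReal := liminf (fun n => ((x n : ℝ) : EReal)) atTop

/-- the upper limit -/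
noncomputable def hi (x : ℕ → ℝ) : EReal := limsup (fun n => ((x n : ℝ) : EReal)) atTop

/-- `c_n ~ A μ^n n^(γ-1)` -/
def Power (μ γ A : ℝ) : Prop := Tendsto (X μ γ) atTop (𝓝 A)

/-- **Theorem.** On `ℤ³` let `μ = lim c_n^(1/n)`; the limit exists.
(1) For every real `γ` and every parity `p` the limit points of `c_n / (μ^n n^(γ-1))` along the `n` of
parity `p` are all the numbers between the lower and the upper limit.
(2) For every `0 < ε < 1/3` there is `K` such that for all `γ`, `p` and every real `B > 0` strictly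
between these two limits `|c_n / (μ^n n^(γ-1)) - B| ≤ K (1 + |γ|) B n^(-1/3+ε)` for infinitely many `n`
of parity `p`.
(3) The limit points of `log (c_n / μ^n) / log n` are the numbers between the lower limit, which is at
least `0`, and the upper limit; if `γ - 1` lies strictly between these limits, every element of
`[0, ∞]` is a limit point of `c_n / (μ^n n^(γ-1))` along the `n` of each parity.
(4) `c_n / (μ^n n^(γ-1))` tends to the real number `A` if and only if `A` is a limit point of it along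
each parity, and for each parity only countably many limit points lie in some neighbourhood of `A`.
(5) For `A > 0`: `c_n ~ A μ^n n^(γ-1)` if and only if the probability `P n n = c_{2n}/c_n²` is
asymptotic to `2^(γ-1) A^(-1) n^(-(γ-1))`; and it is enough that this holds along a set of `n` which is
closed under doubling and contains an element of the parity of `n` in `[n, n + n^(1/3-ε)]` for all
large `n`.
(6) For `A > 0` and lengths `N k` with `2 k ≤ (N k)^(1/3-ε)`: `c_n ~ A μ^n n^(γ-1)` along the even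
`n` if and only if `P (N k) (2 k)` is asymptotic to `A^(-1) (2 k)^(-(γ-1))`. -/
theorem result : ∃ μ : ℝ, 77 / 20 ≤ μ ∧ μ ≤ 5 ∧
    Tendsto (fun n : ℕ => (C n : ℝ) ^ (1 / (n : ℝ))) atTop (𝓝 μ) ∧
    (∀ (γ : ℝ) (p : ℕ), p ≤ 1 → Lim (XP μ γ p) = Icc (lo (XP μ γ p)) (hi (XP μ γ p))) ∧
    (∀ ε : ℝ, 0 < ε → ε < 1 / 3 → ∃ K : ℝ, 0 ≤ K ∧ ∀ (γ B : ℝ) (p : ℕ), p ≤ 1 → 0 < B →
      lo (XP μ γ p) < B → (B : EReal) < hi (XP μ γ p) →
      ∃ᶠ k in atTop, |XP μ γ p k - B| ≤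
        K * (1 + |γ|) * B * ((2 * k + p : ℕ) : ℝ) ^ (-(1 / 3 : ℝ) + ε)) ∧
    (Lim (E μ) = Icc (lo (E μ)) (hi (E μ)) ∧ 0 ≤ lo (E μ) ∧
      ∀ (γ : ℝ) (p : ℕ), p ≤ 1 → lo (E μ) < ((γ - 1 : ℝ) : EReal) →
        ((γ - 1 : ℝ) : EReal) < hi (E μ) → Lim (XP μ γ p) = Icc 0 ⊤) ∧
    (∀ γ A : ℝ, Power μ γ A ↔ ∀ p : ℕ, p ≤ 1 → (A : EReal) ∈ Lim (XP μ γ p) ∧
      ∃ δ : ℝ, 0 < δ ∧ {t : ℝ | (t : EReal) ∈ Lim (XP μ γ p) ∧ |t - A| < δ}.Countable) ∧
    ∀ γ A : ℝ, 0 < A →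
      (Power μ γ A ↔
        Tendsto (fun n : ℕ => P n n * (n : ℝ) ^ (γ - 1)) atTop (𝓝 (2 ^ (γ - 1) / A))) ∧
      ∀ ε : ℝ, 0 < ε → ε < 1 / 3 →
        (∀ S : Set ℕ, (∀ n ∈ S, 2 * n ∈ S) →
          (∀ᶠ n : ℕ in atTop, ∃ m ∈ S, n ≤ m ∧ m % 2 = n % 2 ∧
            (m : ℝ) ≤ n + (n : ℝ) ^ (1 / 3 - ε)) →
          Tendsto (fun n : ℕ => P n n * (n : ℝ) ^ (γ - 1)) (atTop ⊓ 𝓟 S) (𝓝 (2 ^ (γ - 1) / A)) →
          Power μ γ A) ∧
        ∀ N : ℕ → ℕ, (∀ᶠ k : ℕ in atTop, ((2 * k : ℕ) : ℝ) ≤ (N k : ℝ) ^ (1 / 3 - ε)) →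
          (Tendsto (fun k : ℕ => X μ γ (2 * k)) atTop (𝓝 A) ↔
            Tendsto (fun k : ℕ => P (N k) (2 * k) * ((2 * k : ℕ) : ℝ) ^ (γ - 1)) atTop
              (𝓝 A⁻¹)) := by
  have hC : ∀ n, C n = TH966.KO.c n := fun n => Pool.Agent.H46R2.K3.P.card_eq n
  have h := Pool.Agent.R956.Z3.hy
  set c : ℕ → ℝ := fun n => (TH966.KO.c n : ℝ) with hc
  have hr : ∀ n : ℕ, (C n : ℝ) / TH966.KO.μ ^ n = Run7.h130.PL.Z3.rr c TH966.KO.μ n := by
    intro n
    rw [hC]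
    rfl
  have hX : ∀ (γ : ℝ) (n : ℕ), X TH966.KO.μ γ n =
      Run7.h130.PL.Z3.rr c TH966.KO.μ n / (n : ℝ) ^ (γ - 1) := by
    intro γ n
    unfold X
    rw [hr]
  have hXP : ∀ (γ : ℝ) (p : ℕ), XP TH966.KO.μ γ p =
      Run7.h130.PL.amp (Run7.h130.PL.Z3.rr c TH966.KO.μ) (γ - 1) p := by
    intro γ p
    funext k
    unfold XP
    rw [hX]
    rfl
  have hE : E TH966.KO.μ = Run7.h130.PL.g (Run7.h130.PL.Z3.rr c TH966.KO.μ) := by
    funext n
    unfold E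
    rw [hr]
    rfl
  have hP : ∀ n m, P n m = Pool.Agent.R956.Z2.P c n m := by
    intro n m
    unfold P Pool.Agent.R956.Z2.P
    rw [hC, hC, hC]
  have hPow : ∀ γ A : ℝ, Power TH966.KO.μ γ A ↔ Tendsto (fun n : ℕ =>
      Run7.h130.PL.Z3.rr c TH966.KO.μ n / (n : ℝ) ^ (γ - 1)) atTop (𝓝 A) := by
    intro γ A
    unfold Power
    rw [show X TH966.KO.μ γ = fun n : ℕ =>
      Run7.h130.PL.Z3.rr c TH966.KO.μ n / (n : ℝ) ^ (γ - 1) from funext (hX γ)]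
  obtain ⟨K0, M0, k0, S0⟩ := Run7.h130.PL.Z3.sys h (ε := 1 / 6) (by norm_num) (by norm_num)
  refine ⟨TH966.KO.μ, TH966.KO.mu_ge, TH966.KO.mu_le, ?_, ?_, ?_, ⟨?_, ?_, ?_⟩, ?_, ?_⟩
  · simpa only [hC] using TH966.KO.tend
  · intro γ p hp
    rw [hXP]
    exact Run7.h130.PL.amp_Cl (S0.par (γ - 1) p)
  · intro ε hε hε3
    obtain ⟨K, M, hK, S⟩ := Run7.h130.PL.Z3.sys h hε hε3
    refine ⟨2 * K + 4, by positivity, fun γ B p hp hB h1 h2 => ?_⟩
    rw [hXP] at h1 h2 ⊢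
    refine ((Run7.h130.PL.attained' (S.par (γ - 1) p) hB h1 h2).and_eventually
      (eventually_ge_atTop 1)).mono ?_
    rintro k ⟨h3, hk⟩
    refine h3.trans ?_
    have hn : 1 ≤ 2 * k + p := by omega
    have hn' : (0 : ℝ) < ((2 * k + p : ℕ) : ℝ) := by exact_mod_cast hn
    have h4 : 1 / ((2 * k + p : ℕ) : ℝ) ≤ ((2 * k + p : ℕ) : ℝ) ^ (-(1 / 3 : ℝ) + ε) := by
      have := Pool.Agent.R956.Z2.rpow_le_of hn (show (-1 : ℝ) ≤ -(1 / 3 : ℝ) + ε by linarith)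
      rwa [Real.rpow_neg_one, ← one_div] at this
    have h5 : |γ - 1| ≤ 1 + |γ| := by
      have := abs_sub γ 1
      rw [abs_one] at this
      linarith
    have h6 : 2 * |γ - 1| / ((2 * k + p : ℕ) : ℝ) ≤
        2 * (1 + |γ|) * ((2 * k + p : ℕ) : ℝ) ^ (-(1 / 3 : ℝ) + ε) := by
      rw [div_eq_mul_one_div]
      have := abs_nonneg (γ - 1)
      gcongr
    have h7 : K * ((2 * k + p : ℕ) : ℝ) ^ (-(1 / 3 : ℝ) + ε) ≤
        K * (1 + |γ|) * ((2 * k + p : ℕ) : ℝ) ^ (-(1 / 3 : ℝ) + ε) := by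
      have h8 := abs_nonneg γ
      have h9 : K ≤ K * (1 + |γ|) := by nlinarith
      gcongr
    show 2 * B * (K * ((2 * k + p : ℕ) : ℝ) ^ (-(1 / 3 : ℝ) + ε) +
      2 * |γ - 1| / ((2 * k + p : ℕ) : ℝ)) ≤ _
    calc 2 * B * (K * ((2 * k + p : ℕ) : ℝ) ^ (-(1 / 3 : ℝ) + ε) +
          2 * |γ - 1| / ((2 * k + p : ℕ) : ℝ)) ≤
          2 * B * (K * (1 + |γ|) * ((2 * k + p : ℕ) : ℝ) ^ (-(1 / 3 : ℝ) + ε) +
            2 * (1 + |γ|) * ((2 * k + p : ℕ) : ℝ) ^ (-(1 / 3 : ℝ) + ε)) := by gcongr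
      _ = (2 * K + 4) * (1 + |γ|) * B * ((2 * k + p : ℕ) : ℝ) ^ (-(1 / 3 : ℝ) + ε) := by ring
  · rw [hE]
    exact S0.g_Cl
  · refine le_liminf_of_le (by isBoundedDefault) ?_
    filter_upwards [eventually_ge_atTop 1] with n hn
    have h1 : (0 : ℝ) ≤ E TH966.KO.μ n := by
      unfold E
      refine div_nonneg (Real.log_nonneg ?_) (Real.log_nonneg (by exact_mod_cast hn))
      rw [le_div_iff₀ (pow_pos h.mu n), one_mul, hC]
      exact h.low n
    exact_mod_cast h1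
  · intro γ p hp h1 h2
    rw [hE] at h1 h2
    rw [hXP]
    exact S0.osc_Cl h1 h2 hp
  · intro γ A
    rw [hPow, S0.amp_iff (γ - 1) A]
    simp only [hXP]
    rfl
  · intro γ A hA
    refine ⟨?_, fun ε hε hε3 => ⟨?_, ?_⟩⟩
    · rw [hPow]
      simp only [hP]
      exact Run7.h130.PL.Z3.iff_double h (γ - 1) hA
    · intro S hS hG h1
      rw [hPow]
      simp only [hP] at h1
      exact Run7.h130.PL.Z3.of_sparse h (γ - 1) hA hε hε3 hS hG h1
    · intro N hN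
      simp only [hP, hX]
      exact Run7.h130.PL.Z3.iff_unequal h (γ - 1) hA hε hε3 hN

end Pool.Agent.Results.MP_794e6e_pr.NonIntersectionAmplitude
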