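import Pool.Agent.Run7.h106.AX.Main

/-!
Self-avoiding walks on `ℤ³` whose steps carry weights depending on their directions (forces and
anisotropy): analytic continuation of the generating function beyond its own circle of convergence,
uniformly in the weights.
-/

set_option autoImplicit false

namespace Pool.Agent.Results.MP_794e6e_pr.WeightedStepsContinuation

open Filter Topology

/-- `ω` is an `n`-step self-avoiding walk on `ℤ³` started at the origin. -/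
def IsSAW (n : ℕ) (ω : Fin (n + 1) → Fin 3 → ℤ) : Prop :=
  ω 0 = 0 ∧ (∀ i : Fin n, ∑ j, |ω i.succ j - ω i.castSucc j| = 1) ∧ Function.Injective ω

/-- The number of `n`-step self-avoiding walks from the origin. -/
noncomputable def c (n : ℕ) : ℕ := {ω | IsSAW n ω}.ncard

/-- The weight of a walk: the product of `a (s)` over its steps `s = ω(i+1) - ω(i)`. -/
noncomputable def weight (a : (Fin 3 → ℤ) → ℝ) {n : ℕ} (ω : Fin (n + 1) → Fin 3 → ℤ) : ℝ :=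
  ∏ i : Fin n, a (ω i.succ - ω i.castSucc)

/-- The weighted number of `n`-step self-avoiding walks from the origin. -/
noncomputable def Z (a : (Fin 3 → ℤ) → ℝ) (n : ℕ) : ℝ := ∑ᶠ ω ∈ {ω | IsSAW n ω}, weight a ω

/-- The weighted sum over the `n`-step self-avoiding walks of a function `g` of the end point. -/
noncomputable def Zg (a g : (Fin 3 → ℤ) → ℝ) (n : ℕ) : ℝ :=
  ∑ᶠ ω ∈ {ω | IsSAW n ω}, g (ω (Fin.last n)) * weight a ω

/-- The weights of all six directions are in `[exp (-h), exp h]`. -/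
def Near (h : ℝ) (a : (Fin 3 → ℤ) → ℝ) : Prop :=
  ∀ x : Fin 3 → ℤ, ∑ j, |x j| = 1 → Real.exp (-h) ≤ a x ∧ a x ≤ Real.exp h

/-- `cos (2 arg z)` for `z ≠ 0` -/
noncomputable def cos2 (z : ℂ) : ℝ := (z ^ 2).re / ‖z‖ ^ 2

/-- The domain `|z| < (1 + δ (1 - cos (2 arg z))) / ν`: the disc `|z| < 1 / ν` enlarged at all
points of the circle `|z| = 1 / ν` except `±1 / ν`. -/
def Dom (ν δ : ℝ) : Set ℂ := {z | ν * ‖z‖ < 1 + δ * (1 - cos2 z)}

/-- `F` is a holomorphic extension of the power series with coefficients `u n` from the disc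
`|z| < 1/ν` to `Dom ν δ`, bounded by `K` plus its value at the point
`(1 - δ (1 - cos (2 arg z))) / ν` of the interval `(0, 1/ν)`. -/
def Extends (ν δ K : ℝ) (u : ℕ → ℝ) (F : ℂ → ℂ) : Prop :=
  DifferentiableOn ℂ F (Dom ν δ) ∧
    (∀ z : ℂ, ν * ‖z‖ < 1 → HasSum (fun n => (u n : ℂ) * z ^ n) (F z)) ∧
    ∀ z ∈ Dom ν δ, z ≠ 0 → cos2 z < 1 →
      ‖F z‖ ≤ K + ‖F (((1 - δ * (1 - cos2 z)) / ν : ℝ) : ℂ)‖

/-- **Theorem.** Let `μ` be the connective constant of `ℤ³`. There are `h₀ > 0`, `κ > 1`, `δ > 0`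
and `K` with the following properties.
(1) For all weights `a` of the six directions in `[exp (-h₀), exp h₀]` the limit `ν` of
`Z(a, n)^(1/n)` exists and is in `[μ/κ, κ μ]`, and the generating function `∑ Z(a, n) z^n`, whose
radius of convergence is `1/ν`, has a holomorphic extension `F` to the open connected set
`Dom ν δ`, which contains the disc `|z| < 1/ν` and all points of the circle `|z| = 1/ν` except
`1/ν` and `-1/ν`, with `|F(z)| ≤ K + |F(x)|`, `x = (1 - δ (1 - cos (2 arg z))) / ν`, for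
`z² ∉ [0, ∞)`.
(2) The same holds for every `ν` in `[μ/κ, κ μ]`, all such weights `a`, all functions `g ≥ 0` of
the end point with `g(x) ≤ exp (h₀ |x|₁)`, and the series `∑ z^n ∑_ω g(ω(n)) a(ω)`, if it
converges for `0 ≤ z < 1/ν`.
The numbers `δ` and `K` do not depend on `a`, `g` and `ν`. -/
theorem result : ∃ μ : ℝ, 1 ≤ μ ∧
    Tendsto (fun n : ℕ => (c n : ℝ) ^ (1 / (n : ℝ))) atTop (𝓝 μ) ∧
    ∃ h₀ : ℝ, 0 < h₀ ∧ ∃ κ : ℝ, 1 < κ ∧ ∃ δ : ℝ, 0 < δ ∧ δ ≤ 1 / 4 ∧ ∃ K : ℝ,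
    (∀ a : (Fin 3 → ℤ) → ℝ, Near h₀ a → ∃ ν : ℝ, μ / κ ≤ ν ∧ ν ≤ κ * μ ∧
      Tendsto (fun n : ℕ => Z a n ^ (1 / (n : ℝ))) atTop (𝓝 ν) ∧
      ∃ F : ℂ → ℂ, Extends ν δ K (Z a) F) ∧
    ∀ ν : ℝ, μ / κ ≤ ν → ν ≤ κ * μ →
      (IsOpen (Dom ν δ) ∧ IsPreconnected (Dom ν δ) ∧ (∀ z : ℂ, ν * ‖z‖ < 1 → z ∈ Dom ν δ) ∧
        ∀ z : ℂ, ν * ‖z‖ = 1 → z ≠ ((1 / ν : ℝ) : ℂ) → z ≠ ((-(1 / ν) : ℝ) : ℂ) → z ∈ Dom ν δ) ∧
      ∀ a g : (Fin 3 → ℤ) → ℝ, Near h₀ a →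
        (∀ x, 0 ≤ g x ∧ g x ≤ Real.exp (h₀ * ∑ j, |(x j : ℝ)|)) →
        (∀ x : ℝ, 0 ≤ x → ν * x < 1 → Summable (fun n => Zg a g n * x ^ n)) →
        ∃ F : ℂ → ℂ, Extends ν δ K (Zg a g) F := by
  obtain ⟨h₀, hh₀, κ, hκ, δ, hδ, hδ4, K, h1, h2⟩ := Run7.h106.AX.steps
  refine ⟨TH966.KO.μ, by linarith [Run7.h106.AH.ge3], Run7.h106.AH.lim3, h₀, hh₀, κ, hκ, δ, hδ,
    hδ4, K, fun a ha => ?_, fun ν hν1 hν2 => ?_⟩
  · obtain ⟨ν, hν1, hν2, hν3, hν4⟩ := h2 a ha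
    have e : ∀ n, Zg a (fun _ => 1) n = Z a n := by
      intro n
      unfold Zg Z
      simp only [one_mul]
    obtain ⟨F, hF⟩ := (h1 ν hν1 hν2).2 a (fun _ => 1) ha (fun x => ⟨zero_le_one,
      Real.one_le_exp (mul_nonneg hh₀.le (Finset.sum_nonneg fun j _ => abs_nonneg _))⟩)
      (fun x hx0 hx => by
        refine (hν4 x hx0 hx).congr fun n => ?_
        rw [show Run7.h106.AX.sw 3 a (fun _ => 1) n = Z a n from e n]
        rfl)
    refine ⟨ν, hν1, hν2, hν3, F, ?_⟩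
    have e2 : Z a = Run7.h106.AX.sw 3 a (fun _ => 1) := by
      funext n
      exact (e n).symm
    unfold Extends
    rw [e2]
    exact hF
  · obtain ⟨hν, h3⟩ := h1 ν hν1 hν2
    obtain ⟨d1, d2, d3, d4⟩ := Pool.Agent.N929.AC.dom_facts (s := 2) hδ hν (by norm_num)
    refine ⟨⟨d1, d2, d3, fun z hz z1 z2 => d4 z hz fun h3 => ?_⟩,
      fun a g ha hg hS => h3 a g ha hg hS⟩
    have hn : ‖z‖ = 1 / ν := by field_simp; linarith
    rw [hn] at h3
    rcases sq_eq_sq_iff_eq_or_eq_neg.1 h3 with h4 | h4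
    · exact z1 h4
    · exact z2 (by rw [h4]; push_cast; rfl)

end Pool.Agent.Results.MP_794e6e_pr.WeightedStepsContinuation
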